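import Mathlib
import Pool.Agent.H40GO.GeoGal

/-!
# Galois representations whose Frobenius eigenvalues come from geometry

Let `K` be a number field, `V` a continuous `p`-adic representation of its absolute Galois group (a Tate twist of an
étale cohomology group of a smooth projective variety, say) and `ρ` a continuous irreducible one, both over `ℚ_p`.  We
show that `ρ` is a subquotient of a tensor product of copies of `V` and of its dual if and only if there is a bound `B`
such that for all `v` in a given set of primes of upper density one all eigenvalues of `ρ` at the Frobenius elements at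
`v` are quotients of products of at most `B` eigenvalues of `V`.
-/

set_option autoImplicit false

namespace Pool.Agent.Results.MP_f68ac8_nt.FrobeniusEigenvalues

open NumberField IsDedekindDomain Filter Matrix

/-- The absolute Galois group of `K`, with the Krull topology. -/
abbrev GK (K : Type) [Field K] : Type := Gal(AlgebraicClosure K/K)

/-- `σ` is an (arithmetic) Frobenius element at the prime `v` of `K`: there is a maximal ideal `M` above `v` of the ring
of all algebraic integers with `σ x ≡ x ^ N(v)` modulo `M` for all `x`. -/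
def IsFrob {K : Type} [Field K] [NumberField K] (v : HeightOneSpectrum (𝓞 K)) (σ : GK K) : Prop :=
  ∃ M : Ideal (𝓞 (AlgebraicClosure K)), M.IsMaximal ∧
    M.comap (algebraMap (𝓞 K) (𝓞 (AlgebraicClosure K))) = v.asIdeal ∧
    ∀ x : 𝓞 (AlgebraicClosure K), σ • x - x ^ Ideal.absNorm v.asIdeal ∈ M

/-- A set `S` of primes of `K` has upper natural density one: for all `ε > 0` there are arbitrarily large `k` such that
at least a proportion `1 - ε` of the primes of norm at most `k` are in `S`. -/
def UpperDensityOne {K : Type} [Field K] [NumberField K] (S : Set (HeightOneSpectrum (𝓞 K))) : Prop :=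
  ∀ ε : ℝ, 0 < ε → ∃ᶠ k : ℕ in atTop,
    (1 - ε) * (Nat.card {v : HeightOneSpectrum (𝓞 K) // Ideal.absNorm v.asIdeal ≤ k} : ℝ) ≤
      (Nat.card {v : HeightOneSpectrum (𝓞 K) // Ideal.absNorm v.asIdeal ≤ k ∧ v ∈ S} : ℝ)

/-- A representation in matrices is irreducible: its dimension is positive, and it has no stable subspace other than
zero and the whole space. -/
def IsIrreducible {Γ F : Type} [Group Γ] [Field F] {n : ℕ} (ρ : Γ →* Matrix (Fin n) (Fin n) F) : Prop :=
  0 < n ∧ ∀ U : Submodule F (Fin n → F), (∀ g, ∀ u ∈ U, ρ g *ᵥ u ∈ U) → U = ⊥ ∨ U = ⊤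

/-- `ρ` is isomorphic to a subquotient of `T`: there are a stable subspace `U` of `T` and an equivariant linear
surjection from `U` to `ρ`. -/
def IsSubquotient {Γ F I : Type} [Group Γ] [Field F] [Fintype I] [DecidableEq I] {n : ℕ}
    (T : Γ →* Matrix I I F) (ρ : Γ →* Matrix (Fin n) (Fin n) F) : Prop :=
  ∃ (U : Submodule F (I → F)) (π : U →ₗ[F] (Fin n → F)), Function.Surjective π ∧
    ∀ (g : Γ) (u : U), ∃ h : T g *ᵥ (u : I → F) ∈ U, π ⟨T g *ᵥ (u : I → F), h⟩ = ρ g *ᵥ π u

/-- The tensor product of `a` copies of `V` and `b` copies of its dual, in the coordinates given by the standard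
basis. -/
def tensorRep {Γ F : Type} [Group Γ] [Field F] {N : ℕ} (V : Γ →* Matrix (Fin N) (Fin N) F) (a b : ℕ) :
    Γ →* Matrix ((Fin a → Fin N) × (Fin b → Fin N)) ((Fin a → Fin N) × (Fin b → Fin N)) F where
  toFun g := Matrix.of fun p q => (∏ s, V g (p.1 s) (q.1 s)) * ∏ t, V g⁻¹ (q.2 t) (p.2 t)
  map_one' := by
    have h := (Pool.Agent.H40GO.tens V 1 a b 0).map_one
    rw [← h]
    ext p q
    simp [Pool.Agent.H40GO.tens]
  map_mul' g g' := by
    have h := (Pool.Agent.H40GO.tens V 1 a b 0).map_mul g g'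
    have h1 : ∀ x, Pool.Agent.H40GO.tens V 1 a b 0 x =
        Matrix.of fun p q => (∏ s, V x (p.1 s) (q.1 s)) * ∏ t, V x⁻¹ (q.2 t) (p.2 t) := by
      intro x
      ext p q
      simp [Pool.Agent.H40GO.tens]
    rw [h1, h1, h1] at h
    exact h

/-- `z`, in the algebraic closure of `ℚ_p`, is an eigenvalue of the matrix `M` over `ℚ_p`. -/
def IsEigenvalue {p : ℕ} [Fact p.Prime] {n : ℕ} (M : Matrix (Fin n) (Fin n) ℚ_[p]) (z : PadicAlgCl p) : Prop :=
  (M.charpoly.map (algebraMap ℚ_[p] (PadicAlgCl p))).IsRoot z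

/-- `z` is a product of at most `B` eigenvalues of `M`, divided by a product of at most `B` eigenvalues of `M`. -/
def IsMonomial {p : ℕ} [Fact p.Prime] {N : ℕ} (B : ℕ) (M : Matrix (Fin N) (Fin N) ℚ_[p]) (z : PadicAlgCl p) : Prop :=
  ∃ a ≤ B, ∃ b ≤ B, ∃ (α : Fin a → PadicAlgCl p) (β : Fin b → PadicAlgCl p),
    (∀ i, IsEigenvalue M (α i)) ∧ (∀ j, IsEigenvalue M (β j)) ∧ z * ∏ j, β j = ∏ i, α i

/-- **Theorem.** Let `V` and `ρ` be continuous representations of the absolute Galois group of a number field `K` over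
`ℚ_p`, with `ρ` irreducible, and `S` a set of primes of `K` of upper density one.  Then `ρ` is a subquotient of a tensor
product of copies of `V` and of its dual if and only if there is `B` such that for all `v` in `S` and all Frobenius
elements `σ` at `v` each eigenvalue of `ρ σ` is a product of at most `B` eigenvalues of `V σ` divided by a product of at
most `B` eigenvalues of `V σ`. -/
theorem result (K : Type) [Field K] [NumberField K] (p : ℕ) [Fact p.Prime] (N n : ℕ)
    (V : GK K →* Matrix (Fin N) (Fin N) ℚ_[p]) (ρ : GK K →* Matrix (Fin n) (Fin n) ℚ_[p])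
    (hV : Continuous V) (hρ : Continuous ρ) (hirr : IsIrreducible ρ)
    (S : Set (HeightOneSpectrum (𝓞 K))) (hS : UpperDensityOne S) :
    (∃ a b : ℕ, IsSubquotient (tensorRep V a b) ρ) ↔
      ∃ B : ℕ, ∀ v ∈ S, ∀ σ : GK K, IsFrob v σ → ∀ z : PadicAlgCl p, IsEigenvalue (ρ σ) z → IsMonomial B (V σ) z := by
  have h1 : ∀ a b : ℕ, tensorRep V a b = Pool.Agent.H40GO.tens V 1 a b 0 := by
    intro a b
    ext x p q
    simp [tensorRep, Pool.Agent.H40GO.tens]
  simp only [h1]
  constructor
  · rintro ⟨a, b, h⟩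
    refine ⟨max a b, fun v _ σ _ z hz => ?_⟩
    obtain ⟨al, be, h2, h3, h4⟩ := Pool.Agent.H40GO.main_geo_conv (G := PadicAlgCl p) N n V ρ a b h σ z (by
      rw [Pool.Agent.H40GO.bc_charpoly]
      exact hz)
    rw [Pool.Agent.H40GO.bc_charpoly] at h2 h3
    exact ⟨a, le_max_left _ _, b, le_max_right _ _, al, be, h2, h3, h4⟩
  · rintro ⟨B, h⟩
    refine Pool.Agent.H40GO.main_geo (G := PadicAlgCl p) ?_ N n V ρ hV hρ ⟨⟨⟨0, hirr.1⟩⟩, hirr.2⟩ S hS B ?_
    · exact continuous_algebraMap ℚ_[p] (PadicAlgCl p)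
    · intro v hv σ hσ z hz
      rw [Pool.Agent.H40GO.bc_charpoly] at hz
      rw [Pool.Agent.H40GO.bigPoly_root, Pool.Agent.H40GO.bc_charpoly]
      exact h v hv σ hσ z hz

end Pool.Agent.Results.MP_f68ac8_nt.FrobeniusEigenvalues
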